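import Pool.Agent.H99.CyclesProof

/-!
# The Game of Cycles: a triangle-free board with an odd number of edges won by Player 2
-/

set_option autoImplicit false

namespace Pool.Agent.Results.MP_b0ae03_co.OddBoardPlayerTwo

open Pool.Agent.H99.Cycles

/-- There is a connected triangle-free game board with all degrees at least `2` and an odd number
of edges (namely nine) on which Player 2 has a winning strategy and Player 1 has none. -/
theorem result : ∃ B : Board, B.G.Connected ∧ (∀ v, 2 ≤ (B.G.neighborSet v).ncard) ∧
    B.G.CliqueFree 3 ∧ Odd B.G.edgeSet.ncard ∧ B.PlayerTwoWins ∧ ¬ B.PlayerOneWins :=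
  ⟨Hexagon.board, Hexagon.connected, Hexagon.two_le, Hexagon.cliqueFree, Hexagon.edges_odd,
    Hexagon.playerTwoWins, Hexagon.not_playerOneWins⟩

end Pool.Agent.Results.MP_b0ae03_co.OddBoardPlayerTwo
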